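import Mathlib
import Pool.Agent.Lib.MP_8ca0c8_nt_CYC2.Final2

/-!
# The Schur–Siegel–Smyth trace problem for cyclotomic integers: the two smallest limit points

Let `K` be a number field and let `O_K[μ_∞]` be the ring generated by the integers of `K` and all
roots of unity. The limit points `≤ 5/2` of the mean traces of the totally positive elements of
`O_K[μ_∞]` are exactly `2` and `5/2`; only finitely many of these elements have mean trace less than
`2 - ε`, and all but finitely many of those with mean trace less than `5/2 - ε` are of the form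
`2 + η + η⁻¹` with a root of unity `η`. For `K = ℚ` the ring `O_K[μ_∞]` is the ring of all
cyclotomic integers.
-/

namespace Pool.Agent.Results.MP_8ca0c8_nt.CyclotomicLimitPoints

open Pool.Agent.CYC Pool.Agent.STP

theorem result :
    (∀ (K : IntermediateField ℚ ℂ) [FiniteDimensional ℚ K],
      {x : ℝ | x ≤ 5 / 2 ∧ IsLimitPoint (traceSetOf (Rinf K)) x} = {2, 5 / 2} ∧
      (∀ ε : ℝ, 0 < ε →
        {α : ℂ | α ∈ Rinf K ∧ IsTotallyPositive α ∧ (meanTrace α).re < 2 - ε}.Finite) ∧
      ∀ ε : ℝ, 0 < ε →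
        {α : ℂ | α ∈ Rinf K ∧ IsTotallyPositive α ∧ (meanTrace α).re < 5 / 2 - ε ∧
          ∀ η : ℂ, (∃ k : ℕ, 0 < k ∧ η ^ k = 1) → α ≠ 2 + η + η⁻¹}.Finite) ∧
    ∀ α : ℂ, α ∈ Rinf ⊥ ↔ IsCyclotomicInteger α :=
  ⟨fun K _ => final2 K, mem_Rinf_bot_iff⟩

end Pool.Agent.Results.MP_8ca0c8_nt.CyclotomicLimitPoints
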