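import Mathlib
import Pool.Agent.Lib.MP_8ca0c8_nt.Defs
import Pool.Agent.Lib.MP_8ca0c8_nt.Smooth9

/-!
# The Schur–Siegel–Smyth trace problem: the set of mean traces above its smallest limit point

Let `ℓ` be the smallest limit point of the set `𝒯` of mean traces of totally positive algebraic
integers. Then the set of limit points of `𝒯` is the closed half-line `[ℓ, ∞)`, the elements of `𝒯`
greater than `ℓ` are exactly the rational numbers greater than `ℓ`, and for every `c < ℓ` only finitely
many elements of `𝒯` are at most `c`.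
-/

namespace Pool.Agent.Results.MP_8ca0c8_nt.RationalMeanTraces

open Pool.Agent.STP

theorem result : ∃ l : ℝ, {x : ℝ | IsLimitPoint meanTraceSet x} = Set.Ici l ∧
    (∀ x : ℝ, l < x → (x ∈ meanTraceSet ↔ ∃ q : ℚ, (q : ℝ) = x)) ∧
    ∀ c : ℝ, c < l → (meanTraceSet ∩ Set.Iic c).Finite :=
  structure_theorem

end Pool.Agent.Results.MP_8ca0c8_nt.RationalMeanTraces
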