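import Mathlib
import Pool.Agent.Lib.MP_8ca0c8_nt.Defs
import Pool.Agent.Lib.MP_8ca0c8_nt_TL.Count

/-!
# The Schur–Siegel–Smyth trace problem: the optimal linear lower bound up to a logarithm

Let `ℓ` be the smallest limit point of the set `𝒯` of mean traces of totally positive algebraic
integers. Every totally positive algebraic integer `α` of degree `d` satisfies
`Tr α ≥ ℓ d - 480 (1 + log d)`; more precisely every rational number from
`Tr α / d + 480 (1 + log d) / d` on is the mean trace of a totally positive algebraic integer.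
Consequently `𝒯` has at most `10 ^ 8 ε⁻¹ log² ε⁻¹` elements up to `ℓ - ε`.
-/

namespace Pool.Agent.Results.MP_8ca0c8_nt.TraceLogTerm

open Pool.Agent.STP

theorem result : ∃ l : ℝ, {x : ℝ | IsLimitPoint meanTraceSet x} = Set.Ici l ∧
    (∀ α : ℂ, IsTotallyPositive α → ∀ t : ℝ, meanTrace α = (t : ℂ) →
      l * (minpoly ℚ α).natDegree - 480 * (1 + Real.log (minpoly ℚ α).natDegree) ≤
        t * (minpoly ℚ α).natDegree ∧
      ∀ q : ℚ, t + 480 * (1 + Real.log (minpoly ℚ α).natDegree) / (minpoly ℚ α).natDegree ≤ q →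
        (q : ℝ) ∈ meanTraceSet) ∧
    ∀ ε : ℝ, 0 < ε → ε ≤ 1 / 2 → (meanTraceSet ∩ Set.Iic (l - ε)).Finite ∧
      ((meanTraceSet ∩ Set.Iic (l - ε)).ncard : ℝ) ≤ 10 ^ 8 * (ε⁻¹ * (Real.log ε⁻¹) ^ 2) :=
  log_lower_term

end Pool.Agent.Results.MP_8ca0c8_nt.TraceLogTerm
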