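import Mathlib
import Pool.Agent.Lib.MP_8ca0c8_nt.Defs
import Pool.Agent.Lib.MP_8ca0c8_nt.Above
import Pool.Agent.Lib.MP_8ca0c8_nt.T1Final

/-!
# The Schur–Siegel–Smyth trace problem: an upper bound for the smallest limit point

Every rational number `q ≥ 1.8055461069145` is the mean trace of a totally positive algebraic
integer; in particular every real number `x ≥ 1.8055461069145` is a limit point of the set of mean
traces.
-/

namespace Pool.Agent.Results.MP_8ca0c8_nt.TraceUpperBound

open Pool.Agent.STP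

theorem result :
    (∀ q : ℚ, (1.8055461069145 : ℚ) ≤ q → (q : ℝ) ∈ meanTraceSet) ∧
      ∀ x : ℝ, (1.8055461069145 : ℝ) ≤ x → IsLimitPoint meanTraceSet x := by
  have h : ∀ q : ℚ, (1.8055461069145 : ℚ) ≤ q → (q : ℝ) ∈ meanTraceSet := by
    intro q hq
    refine T1.above q (le_trans (le_of_eq ?_) hq)
    norm_num
  refine ⟨h, fun x hx => isLimitPoint_of_rat (c := (1.8055461069145 : ℝ)) (fun q hq => h q ?_) x hx⟩
  have e : ((1.8055461069145 : ℚ) : ℝ) = (1.8055461069145 : ℝ) := by norm_num
  rw [← e] at hq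
  exact_mod_cast hq

end Pool.Agent.Results.MP_8ca0c8_nt.TraceUpperBound
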